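import Pool.Agent.Helper79.GS.St5

set_option autoImplicit false

namespace Pool.Agent.Helper76.GS

open Pool.Agent.Helper19.SK Pool.Agent.Helper73.DC Finset
open Pool.Agent.Helper79.GS
open scoped Classical

private theorem b01_one {p : Prop} : b01 p = 1 ↔ p := by
  unfold b01
  split_ifs with h <;> simp [h]

private theorem b01_zero {p : Prop} : b01 p = 0 ↔ ¬ p := by
  unfold b01
  split_ifs with h <;> simp [h]

private theorem b01_ne {p : Prop} : b01 p ≠ 0 ↔ p := by
  rw [Ne, b01_zero, not_not]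

private theorem b01_le (p : Prop) : b01 p ≤ 1 := by
  unfold b01
  split_ifs <;> simp

private theorem b01_congr {p q : Prop} (h : p ↔ q) : b01 p = b01 q := by
  rw [propext h]

private theorem WN_eq {P : Type} (A : Arena P) (H₀ : Set P) (r : ℕ) :
    WN A H₀ r = Wst A H₀ (EN A H₀ r) := by
  cases r <;> rfl

private theorem VW_self (w : List (Fin 5)) (u : ℕ) : VW w u u = insert u (HW w) := by
  ext x
  simp only [VW, VN, HW, Set.mem_ofPred_eq, Set.mem_insert_iff]
  tauto

private theorem VW_two (w : List (Fin 5)) (u x : ℕ) : VW w u x = insert x (insert u (HW w)) := by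
  ext y
  simp only [VW, VN, HW, Set.mem_ofPred_eq, Set.mem_insert_iff]
  tauto

private theorem Xb_pos (L : ℕ) : 0 < Xb L := by
  unfold Xb Qb
  positivity

theorem hTG1 (hBND : StBND) (hFLD : StFLD) (hARN : StARN) : StTG1 := by
  intro w r c a b u k m fl d s t x h
  obtain ⟨_, _, hPh, hPh14, hNb, h2Nb, hnm, hSd, _, _, hPl3, hPlS, hXbl, _, _, _, _, h16, _⟩ := hBND w
  have hPN : PhN (NN 16 w) w ≤ NN 16 w := (Nat.le_self_pow (by norm_num) _).trans hPh14
  obtain ⟨⟨f0, f1, f2, f3, f4, f5, f6, f7, f8, f9, f10, f11, f12⟩, hz, hV, hrk, hok⟩ :=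
    (hFLD w).2.2.2 1 r c a b u k m fl d s t x h
  obtain ⟨_, hrk0, hok0, _⟩ := hFLD w
  generalize zz (NN 16 w) w 1 r c a b u k m fl d s t x = z at *
  obtain ⟨_, _, hr, hc, _, _, hu, _, _, _, _, _, _, _, _, _⟩ := h
  have hIni : IniN (NN 16 w) w z = 0 := by
    unfold IniN
    rw [f0, if_neg (by norm_num)]
  have hLen : LenN (NN 16 w) w z =
      if ahN (NN 16 w) (nW w) c u then 3 ^ (nW w * nW w) + 2 else 1 := by
    unfold LenN
    rw [f0, if_pos rfl, f2, f5, hNb]
  have hDel : ∀ j, DelN (NN 16 w) w z j = del1 (NN 16 w) w r c u j := by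
    intro j
    unfold DelN
    rw [f0, if_pos rfl, f1, f2, f5]
  have hStp : ∀ j a y, StpN (NN 16 w) w z j a y = stp1 (NN 16 w) w c u j a y := by
    intro j a y
    unfold StpN
    rw [f0, if_pos rfl, f2, f5]
  have hOut : ∀ a, OutN (NN 16 w) w z a = b01 (a = 1) := by
    intro a
    unfold OutN
    rw [f0, if_neg (by norm_num), if_neg (by norm_num)]
  have hstp1 : ∀ j a y, stp1 (NN 16 w) w c u j a y ≤ 1 := by
    intro j a y
    unfold stp1
    split_ifs <;> exact b01_le _
  have hS0 : 0 < (2 ^ LL (nW w) + 1) * (2 ^ LL (nW w) + 2) := by positivity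
  have h30 : 0 < 3 ^ (nW w * nW w) := by positivity
  -- the call of the kind 2
  have hO2 : OkF w 2 r c 0 0 u 0 0 0 0 0 0 0 :=
    ⟨by norm_num, by norm_num, hr, hc, h30, h30, hu, Nat.zero_le _, fun _ => Nat.zero_le _, Nat.zero_le _,
      Nat.zero_le _, Nat.zero_le _, hS0, hS0, Xb_pos _, fun h => absurd h (by norm_num)⟩
  obtain ⟨_, _, hV2, hrk2, hok2⟩ := (hFLD w).2.2.2 2 r c 0 0 u 0 0 0 0 0 0 0 hO2
  have hrk2' : rkW w (zz (NN 16 w) w 2 r c 0 0 u 0 0 0 0 0 0 0) < rkW w z := by
    rw [hrk2, hrk]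
    unfold rkF
    simp only [show ¬ ((1 : ℕ) = 0) by norm_num, show ¬ ((2 : ℕ) = 0) by norm_num,
      show ¬ ((2 : ℕ) = 1) by norm_num, if_false, if_true]
    omega
  have hV2' : ValW w (zz (NN 16 w) w 2 r c 0 0 u 0 0 0 0 0 0 0) =
      b01 (EN (AW w) (HW w) r (cB c) u) := by
    rw [hV2]
    unfold ValF
    rw [if_neg (by norm_num), if_pos rfl]
  -- the calls of the kind 3
  have k3 : ∀ c' a' b' u' : ℕ, c' ≤ 1 → a' < 3 ^ (nW w * nW w) → b' < 3 ^ (nW w * nW w) →
      u' < 3 ^ (nW w * nW w) →
      OkW w (zz (NN 16 w) w 3 r c' a' b' u' (idN (NN 16 w) (nW w) c' u') 0 0 0 0 0 0) ∧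
      rkW w (zz (NN 16 w) w 3 r c' a' b' u' (idN (NN 16 w) (nW w) c' u') 0 0 0 0 0 0) < rkW w z ∧
      ValW w (zz (NN 16 w) w 3 r c' a' b' u' (idN (NN 16 w) (nW w) c' u') 0 0 0 0 0 0) =
        b01 (XIN (AW w) (EN (AW w) (HW w) r) (VW w a' b') (cB c') u') := by
    intro c' a' b' u' hc' ha' hb' hu'
    obtain ⟨_, _, _, _, _, hid, hid2, _, _⟩ := hARN w c' u' 0 hc'
    have hO3 : OkF w 3 r c' a' b' u' (idN (NN 16 w) (nW w) c' u') 0 0 0 0 0 0 :=
      ⟨by norm_num, by norm_num, hr, hc', ha', hb', hu', hid2, fun h => absurd rfl h, Nat.zero_le _,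
        Nat.zero_le _, Nat.zero_le _, hS0, hS0, Xb_pos _, fun h => absurd h (by norm_num)⟩
    obtain ⟨_, _, hV3, hrk3, hok3⟩ :=
      (hFLD w).2.2.2 3 r c' a' b' u' (idN (NN 16 w) (nW w) c' u') 0 0 0 0 0 0 hO3
    refine ⟨hok3, ?_, ?_⟩
    · rw [hrk3, hrk]
      unfold rkF
      simp only [show ¬ ((1 : ℕ) = 0) by norm_num, show ¬ ((3 : ℕ) = 0) by norm_num,
        show ¬ ((3 : ℕ) = 1) by norm_num, show ¬ ((3 : ℕ) = 2) by norm_num, if_false, if_true]
      have h1 : idN (NN 16 w) (nW w) c' u' * (LL (nW w) + 6) ≤ (nW w * nW w + 1) * (LL (nW w) + 6) :=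
        Nat.mul_le_mul_right _ hid2
      have h2 : (nW w * nW w + 2) * (LL (nW w) + 6) =
          (nW w * nW w + 1) * (LL (nW w) + 6) + (LL (nW w) + 6) := by ring
      omega
    · rw [hV3]
      unfold ValF XIN
      rw [if_neg (by norm_num), if_neg (by norm_num), if_pos rfl, hid]
  obtain ⟨hnc, _, _, hrv, hah, _, _, _⟩ := hARN w c u 0 hc
  have h1c : 1 - c ≤ 1 := Nat.sub_le _ _
  have hxlt : ∀ x, c1 (NN 16 w) w c u x → x < 3 ^ (nW w * nW w) := by
    intro x hx
    exact ((hARN w c u x hc).2.2.2.2.2.2.2.1 hx.1.1).2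
  unfold TagOK
  refine ⟨?_, ?_, ?_, ?_, ?_⟩
  · rw [hIni]
    omega
  · rw [hLen]
    split_ifs <;> omega
  · intro j hj
    refine ⟨?_, ?_, ?_⟩
    · rw [hDel]
      unfold del1
      split_ifs with h1 h2 h3 h4
      · exact hok2
      · exact (k3 _ _ _ _ h1c hu hu hu).1
      · exact (k3 _ _ _ _ h1c hu (hxlt _ h4) (hxlt _ h4)).1
      · exact hok0
      · exact (k3 _ _ _ _ hc hu hu hu).1
    · rw [hDel]
      unfold del1
      split_ifs with h1 h2 h3 h4
      · exact hrk2'
      · exact (k3 _ _ _ _ h1c hu hu hu).2.1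
      · exact (k3 _ _ _ _ h1c hu (hxlt _ h4) (hxlt _ h4)).2.1
      · rw [hrk0]
        omega
      · exact (k3 _ _ _ _ hc hu hu hu).2.1
    · intro a' _ y _
      rw [hStp]
      have := hstp1 j a' y
      omega
  · intro a' _
    rw [hOut]
    have := b01_le (a' = 1)
    omega
  · rw [hV, hOut, hIni, hLen]
    have hfun : (fun j a => StpN (NN 16 w) w z j a (ValW w (DelN (NN 16 w) w z j))) =
        fun j a => stp1 (NN 16 w) w c u j a (ValW w (del1 (NN 16 w) w r c u j)) := by
      funext j a
      rw [hStp, hDel]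
    rw [hfun]
    have hVF : ValF w 1 r c a b u k m fl d s t x = b01 (WN (AW w) (HW w) r (cB c) u) := by
      unfold ValF
      rw [if_pos rfl]
    rw [hVF]
    refine b01_congr ?_
    rw [WN_eq]
    unfold Wst
    by_cases hA : ahN (NN 16 w) (nW w) c u
    · rw [if_pos hA, if_pos (hah.mpr hA)]
      set EX := EN (AW w) (HW w) r with hEX
      set Q : ℕ → Prop := fun i => if i = 0 then EX (cB c) u else if i = 1 then
        ¬ XIN (AW w) EX (insert u (HW w)) (!cB c) u else
        c1 (NN 16 w) w c u (i - 2) ∧ ¬ XIN (AW w) EX (insert (i - 2) (insert u (HW w))) (!cB c) (i - 2) with hQ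
      have key : ∀ J : ℕ, (Nat.rec 0 (fun j a => stp1 (NN 16 w) w c u j a
          (ValW w (del1 (NN 16 w) w r c u j))) J : ℕ) = b01 (∃ i < J, Q i) := by
        intro J
        induction J with
        | zero =>
          change 0 = _
          symm
          rw [b01_zero]
          simp
        | succ J ih =>
          change stp1 (NN 16 w) w c u J (Nat.rec 0 (fun j a => stp1 (NN 16 w) w c u j a
            (ValW w (del1 (NN 16 w) w r c u j))) J : ℕ) (ValW w (del1 (NN 16 w) w r c u J)) = _
          rw [ih]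
          have hsucc : (∃ i < J + 1, Q i) ↔ ((∃ i < J, Q i) ∨ Q J) := by
            constructor
            · rintro ⟨i, hi, hq⟩
              rcases Nat.lt_succ_iff_lt_or_eq.mp hi with h1 | h1
              · exact Or.inl ⟨i, h1, hq⟩
              · rw [h1] at hq
                exact Or.inr hq
            · rintro (⟨i, hi, hq⟩ | hq)
              · exact ⟨i, by omega, hq⟩
              · exact ⟨J, by omega, hq⟩
          rw [b01_congr hsucc]
          unfold stp1 del1
          rw [if_pos hA, if_pos hA]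
          by_cases h0 : J = 0
          · rw [if_pos h0, if_pos h0, hV2']
            refine b01_congr ?_
            rw [b01_one, b01_ne, hQ]
            simp only [h0, if_true]
          · rw [if_neg h0, if_neg h0]
            by_cases h1 : J = 1
            · rw [if_pos h1, if_pos h1, (k3 _ _ _ _ h1c hu hu hu).2.2, VW_self, ← hnc]
              refine b01_congr ?_
              rw [b01_one, b01_zero, hQ]
              simp only [h1, if_true, if_neg (show ¬ ((1 : ℕ) = 0) by norm_num)]
            · rw [if_neg h1, if_neg h1]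
              by_cases h2 : c1 (NN 16 w) w c u (J - 2)
              · rw [if_pos h2, (k3 _ _ _ _ h1c hu (hxlt _ h2) (hxlt _ h2)).2.2, VW_two, ← hnc]
                refine b01_congr ?_
                rw [b01_one, b01_zero, hQ]
                simp only [h1, h0, if_false]
              · refine b01_congr ?_
                rw [b01_one, hQ]
                simp only [h1, h0, h2, if_false, false_and, or_false]
      refine Iff.trans ?_ (Iff.trans b01_one.symm
        (iff_of_eq (congrArg (fun q => q = 1) (key (3 ^ (nW w * nW w) + 2)).symm)))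
      constructor
      · rintro (h1 | h1 | ⟨x', h1, h2, h3⟩)
        · refine ⟨0, by omega, ?_⟩
          rw [hQ]
          simpa using h1
        · refine ⟨1, by omega, ?_⟩
          rw [hQ]
          simpa using h1
        · have hc1 : c1 (NN 16 w) w c u x' := by
            refine ⟨((hARN w c u x' hc).2.2.2.1).mp h1, ?_, ?_⟩
            · intro h4
              exact h2 (Or.inr h4)
            · intro h4
              exact h2 (Or.inl h4)
          have := hxlt _ hc1
          refine ⟨x' + 2, by omega, ?_⟩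
          rw [hQ]
          simp only [show ¬ (x' + 2 = 0) by omega, show ¬ (x' + 2 = 1) by omega, if_false,
            show x' + 2 - 2 = x' by omega]
          exact ⟨hc1, h3⟩
      · rintro ⟨i, hi, hq⟩
        rw [hQ] at hq
        by_cases h0 : i = 0
        · simp only [h0, if_true] at hq
          exact Or.inl hq
        · by_cases h1 : i = 1
          · simp only [h1, if_true, if_neg (show ¬ ((1 : ℕ) = 0) by norm_num)] at hq
            exact Or.inr (Or.inl hq)
          · simp only [h1, h0, if_false] at hq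
            obtain ⟨⟨h2, h3, h4⟩, h5⟩ := hq
            refine Or.inr (Or.inr ⟨i - 2, ((hARN w c u (i - 2) hc).2.2.2.1).mpr h2, ?_, h5⟩)
            rintro (h6 | h6)
            · exact h4 h6
            · exact h3 h6
    · rw [if_neg hA, if_neg (fun h => hA (hah.mp h))]
      change _ ↔ stp1 (NN 16 w) w c u 0 0 (ValW w (del1 (NN 16 w) w r c u 0)) = 1
      unfold stp1 del1
      rw [if_neg hA, if_neg hA, (k3 _ _ _ _ hc hu hu hu).2.2, VW_self, b01_one, b01_ne]

end Pool.Agent.Helper76.GS
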